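import Pool.Agent.K1H76.RG.Stm3

/-! # Piece RG B1: `S_EULLOG` from `S_EUL` (dyadic scales) -/

set_option autoImplicit false

namespace Pool.Agent.K1H9.RG

open Filter Finset Topology
open Pool.Agent.K1H76.RG

theorem sup_add {A L : ℝ} (hA : 1 ≤ A) (hL : 1 ≤ L) :
    (2 * L) ^ A + 1 ≤ (3 * L) ^ A := by
  have h1 := Real.add_rpow_le_rpow_add (by linarith : (0 : ℝ) ≤ 2 * L) (by linarith : (0 : ℝ) ≤ L) hA
  have h2 : (1 : ℝ) ≤ L ^ A := Real.one_le_rpow hL (by linarith)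
  have h3 : 2 * L + L = 3 * L := by ring
  rw [h3] at h1
  linarith

theorem quarter (i : ℕ) : ((2 : ℝ) ^ i) ^ (3 / 4 : ℝ) * (2 / (2 : ℝ) ^ i) =
    2 * ((2 : ℝ) ^ (-(1 / 4) : ℝ)) ^ i := by
  have h2 : (0 : ℝ) < (2 : ℝ) ^ i := by positivity
  have h3 : ((2 : ℝ) ^ (-(1 / 4) : ℝ)) ^ i = ((2 : ℝ) ^ i) ^ (-(1 / 4) : ℝ) := by
    rw [← Real.rpow_natCast ((2 : ℝ) ^ (-(1 / 4) : ℝ)) i, ← Real.rpow_natCast 2 i,
      ← Real.rpow_mul (by norm_num), ← Real.rpow_mul (by norm_num), mul_comm]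
  have h4 : ((2 : ℝ) ^ i) ^ (3 / 4 : ℝ) / (2 : ℝ) ^ i = ((2 : ℝ) ^ i) ^ (-(1 / 4) : ℝ) := by
    have h5 : ((2 : ℝ) ^ i) ^ (3 / 4 - 1 : ℝ) = ((2 : ℝ) ^ i) ^ (3 / 4 : ℝ) / (2 : ℝ) ^ i := by
      rw [Real.rpow_sub h2, Real.rpow_one]
    rw [← h5]
    norm_num
  rw [h3, ← h4]
  ring

theorem geo : ∃ S : ℝ, 0 ≤ S ∧ ∀ N : ℕ,
    ∑ i ∈ range N, 2 * ((2 : ℝ) ^ (-(1 / 4) : ℝ)) ^ i ≤ S := by
  have h0 : (0 : ℝ) ≤ (2 : ℝ) ^ (-(1 / 4) : ℝ) := by positivity
  have h1 : (2 : ℝ) ^ (-(1 / 4) : ℝ) < 1 :=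
    Real.rpow_lt_one_of_one_lt_of_neg (by norm_num) (by norm_num)
  have hs : Summable (fun i : ℕ => 2 * ((2 : ℝ) ^ (-(1 / 4) : ℝ)) ^ i) :=
    (summable_geometric_of_lt_one h0 h1).mul_left 2
  exact ⟨∑' i : ℕ, 2 * ((2 : ℝ) ^ (-(1 / 4) : ℝ)) ^ i, tsum_nonneg fun i => by positivity,
    fun N => hs.sum_le_tsum _ fun i _ => by positivity⟩

open Classical in
theorem t_EULLOG (h : S_EUL) : S_EULLOG := by
  obtain ⟨A, hA1, H⟩ := h
  refine ⟨A, hA1, fun η hη ε hε => ?_⟩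
  have hA0 : 0 < A := by linarith
  set B : ℝ := max A (4 * A / ε) with hB
  have hAB : A ≤ B := le_max_left _ _
  have hB0 : 0 < B := by linarith
  have hr0 : 0 < A / B := div_pos hA0 hB0
  have hr : A / B ≤ ε / 4 := by
    rw [div_le_iff₀ hB0]
    have h1 : 4 * A / ε ≤ B := le_max_right _ _
    rw [div_le_iff₀ hε] at h1
    linarith
  obtain ⟨X0, hX0⟩ := eventually_atTop.mp (H B hAB η hη)
  obtain ⟨C, hC0, hC⟩ := mert
  obtain ⟨S, hS0, hS⟩ := geo
  -- everything large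
  have hlogt : Tendsto (fun x : ℕ => Real.log x) atTop atTop :=
    Real.tendsto_log_atTop.comp tendsto_natCast_atTop_atTop
  have hXm : Tendsto (fun x : ℕ => Real.exp ((3 * Real.log x) ^ (A / B))) atTop atTop :=
    Real.tendsto_exp_atTop.comp ((tendsto_rpow_atTop hr0).comp (hlogt.const_mul_atTop (by norm_num)))
  have hll : Tendsto (fun x : ℕ => 3 * ε / 4 * Real.log (Real.log x)) atTop atTop :=
    (Real.tendsto_log_atTop.comp hlogt).const_mul_atTop (by positivity)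
  filter_upwards [eventually_ge_atTop 3, hXm.eventually_ge_atTop (X0 + 3 : ℝ),
    hll.eventually_ge_atTop (A / B * Real.log 3 + C + S)] with x hx3 hxm hlx
  set L := Real.log x with hL
  have hL1 : 1 ≤ L := one_le_log hx3
  have hL0 : 0 < L := by linarith
  set Y : ℕ := ⌈(2 * L) ^ A⌉₊ with hY
  set Xm : ℝ := Real.exp ((3 * L) ^ (A / B)) with hXmd
  set F := (Pr x).filter (fun p => ∃ (_ : NeZero p) (χ : DirichletCharacter ℂ p), χ ≠ 1 ∧
      η < dev Y χ) with hF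
  have hxr : (3 : ℝ) ≤ (x : ℝ) := by exact_mod_cast hx3
  -- the small primes
  have hfl : 3 ≤ ⌊Xm⌋₊ := by
    apply Nat.le_floor
    have : (0 : ℝ) ≤ X0 := Nat.cast_nonneg _
    push_cast
    linarith
  have hsm : ∑ p ∈ F.filter (fun p : ℕ => (p : ℝ) ≤ Xm), 1 / (p : ℝ) ≤
      A / B * (Real.log 3 + Real.log L) + C := by
    have h1 : ∑ p ∈ F.filter (fun p : ℕ => (p : ℝ) ≤ Xm), 1 / (p : ℝ) ≤
        ∑ p ∈ Pr ⌊Xm⌋₊, 1 / (p : ℝ) := by
      apply sum_le_sum_of_subset_of_nonneg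
      · intro p hp
        rw [mem_filter, hF, mem_filter, mem_Pr] at hp
        rw [mem_Pr]
        exact ⟨Nat.le_floor hp.2, hp.1.1.2⟩
      · intro p _ _
        positivity
    have h2 := (abs_le.mp (hC _ hfl)).2
    have h3 : Real.log (Real.log (⌊Xm⌋₊ : ℝ)) ≤ A / B * (Real.log 3 + Real.log L) := by
      have h4 : Real.log (⌊Xm⌋₊ : ℝ) ≤ (3 * L) ^ (A / B) := by
        rw [← Real.log_exp ((3 * L) ^ (A / B))]
        apply Real.log_le_log
        · exact_mod_cast (by omega : 0 < ⌊Xm⌋₊)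
        · exact Nat.floor_le (Real.exp_pos _).le
      have h5 : 0 < Real.log (⌊Xm⌋₊ : ℝ) := by linarith [one_le_log hfl]
      calc Real.log (Real.log (⌊Xm⌋₊ : ℝ)) ≤ Real.log ((3 * L) ^ (A / B)) :=
            Real.log_le_log h5 h4
        _ = A / B * (Real.log 3 + Real.log L) := by
            rw [Real.log_rpow (by linarith), Real.log_mul (by norm_num) hL0.ne']
    linarith
  -- the large primes
  have hbig : ∑ p ∈ F.filter (fun p : ℕ => ¬ (p : ℝ) ≤ Xm), 1 / (p : ℝ) ≤ S := by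
    have hmaps : ∀ p ∈ F.filter (fun p : ℕ => ¬ (p : ℝ) ≤ Xm), Nat.clog 2 p ∈ range (x + 1) := by
      intro p hp
      rw [mem_filter, hF, mem_filter, mem_Pr] at hp
      have h1 : Nat.clog 2 p ≤ p := Nat.clog_le_of_le_pow Nat.lt_two_pow_self.le
      have h2 := hp.1.1.1
      rw [mem_range]
      omega
    rw [← sum_fiberwise_of_maps_to hmaps]
    refine (sum_le_sum fun i _ => ?_).trans (hS (x + 1))
    set G := (F.filter (fun p : ℕ => ¬ (p : ℝ) ≤ Xm)).filter (fun p => Nat.clog 2 p = i) with hG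
    rcases G.eq_empty_or_nonempty with h0 | ⟨p0, hp0⟩
    · rw [h0, sum_empty]
      positivity
    · -- facts for the members
      have hfac : ∀ p ∈ G, p.Prime ∧ p ≤ x ∧ Xm < p ∧ p ≤ 2 ^ i ∧ 2 ^ i < 2 * p ∧
          ∃ (_ : NeZero p) (χ : DirichletCharacter ℂ p), χ ≠ 1 ∧ η < dev Y χ := by
        intro p hp
        rw [hG, mem_filter, mem_filter, hF, mem_filter, mem_Pr] at hp
        obtain ⟨⟨⟨⟨h1, h2⟩, h3⟩, h4⟩, h5⟩ := hp
        refine ⟨h2, h1, not_le.mp h4, ?_, ?_, h3⟩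
        · rw [← h5]
          exact Nat.le_pow_clog (by norm_num) p
        · have h6 : 1 < p := h2.one_lt
          have h7 : 2 ^ (Nat.clog 2 p).pred < p := Nat.pow_pred_clog_lt_self (by norm_num) h6
          have h8 : 0 < Nat.clog 2 p := Nat.clog_pos (by norm_num) h2.two_le
          rw [← h5]
          have h9 : 2 ^ Nat.clog 2 p = 2 * 2 ^ (Nat.clog 2 p).pred := by
            rw [← pow_succ', ← Nat.succ_eq_add_one, Nat.succ_pred_eq_of_pos h8]
          rw [h9]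
          omega
      obtain ⟨q1, q2, q3, q4, q5, -⟩ := hfac p0 hp0
      have hXr : Xm < ((2 ^ i : ℕ) : ℝ) := q3.trans_le (by exact_mod_cast q4)
      have hXpos : (0 : ℝ) < ((2 ^ i : ℕ) : ℝ) := by positivity
      have hX1 : X0 ≤ 2 ^ i := by
        have : (X0 : ℝ) ≤ ((2 ^ i : ℕ) : ℝ) := by linarith
        exact_mod_cast this
      have hlogX : Real.log ((2 ^ i : ℕ) : ℝ) ≤ 2 * L := by
        have h1 : ((2 ^ i : ℕ) : ℝ) ≤ (x : ℝ) ^ 2 := by
          have h2 : 2 ^ i ≤ x ^ 2 := by nlinarith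
          exact_mod_cast h2
        calc Real.log ((2 ^ i : ℕ) : ℝ) ≤ Real.log ((x : ℝ) ^ 2) := Real.log_le_log hXpos h1
          _ = 2 * L := by rw [Real.log_pow, hL]; push_cast; rfl
      have hlogX' : (3 * L) ^ (A / B) ≤ Real.log ((2 ^ i : ℕ) : ℝ) := by
        rw [← Real.log_exp ((3 * L) ^ (A / B))]
        exact Real.log_le_log (Real.exp_pos _) hXr.le
      have hlog0 : 0 ≤ Real.log ((2 ^ i : ℕ) : ℝ) := le_trans (by positivity) hlogX'
      have hc1 : Real.log ((2 ^ i : ℕ) : ℝ) ^ A ≤ (Y : ℝ) :=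
        (Real.rpow_le_rpow hlog0 hlogX hA0.le).trans (Nat.le_ceil _)
      have hc2 : (Y : ℝ) ≤ Real.log ((2 ^ i : ℕ) : ℝ) ^ B := by
        have h1 : (Y : ℝ) ≤ (2 * L) ^ A + 1 := (Nat.ceil_lt_add_one (by positivity)).le
        have h2 : ((3 * L) ^ (A / B)) ^ B ≤ Real.log ((2 ^ i : ℕ) : ℝ) ^ B :=
          Real.rpow_le_rpow (by positivity) hlogX' hB0.le
        rw [← Real.rpow_mul (by linarith), div_mul_cancel₀ _ hB0.ne'] at h2
        exact h1.trans ((sup_add hA1 hL1).trans h2)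
      obtain ⟨Exc, hE1, hE2⟩ := hX0 (2 ^ i) hX1 Y hc1 hc2
      have hsub : G ⊆ Exc := by
        intro p hp
        obtain ⟨p1, p2, p3, p4, p5, hne, χ, hχ, hd⟩ := hfac p hp
        by_contra hpE
        have := hE2 p p1 p4 hpE χ hχ
        unfold dev at hd
        linarith
      calc ∑ p ∈ G, 1 / (p : ℝ) ≤ ∑ _p ∈ G, 2 / (2 : ℝ) ^ i := by
            apply sum_le_sum
            intro p hp
            obtain ⟨p1, p2, p3, p4, p5, -⟩ := hfac p hp
            have hp0 : (0 : ℝ) < p := by exact_mod_cast p1.pos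
            rw [div_le_div_iff₀ hp0 (by positivity)]
            have : ((2 ^ i : ℕ) : ℝ) < ((2 * p : ℕ) : ℝ) := by exact_mod_cast p5
            push_cast at this
            linarith
        _ = (#G : ℝ) * (2 / (2 : ℝ) ^ i) := by rw [sum_const, nsmul_eq_mul]
        _ ≤ ((2 : ℝ) ^ i) ^ (3 / 4 : ℝ) * (2 / (2 : ℝ) ^ i) := by
            apply mul_le_mul_of_nonneg_right _ (by positivity)
            have h1 : (#G : ℝ) ≤ #Exc := by exact_mod_cast card_le_card hsub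
            have h2 : ((2 ^ i : ℕ) : ℝ) = (2 : ℝ) ^ i := by push_cast; ring
            rw [h2] at hE1
            exact h1.trans hE1
        _ = 2 * ((2 : ℝ) ^ (-(1 / 4) : ℝ)) ^ i := quarter i
  have hsplit := sum_filter_add_sum_filter_not F (fun p : ℕ => (p : ℝ) ≤ Xm) (fun p : ℕ => 1 / (p : ℝ))
  rw [← hsplit]
  have hlL : 0 ≤ Real.log L := Real.log_nonneg hL1
  have h1 : A / B * Real.log L ≤ ε / 4 * Real.log L := mul_le_mul_of_nonneg_right hr hlL
  nlinarith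

end Pool.Agent.K1H9.RG
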